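import Pool.Agent.Lib.helper13.KAPI

namespace Pool.Agent.Results.MP_616e01_lc.Yes

open Finset Filter Classical MeasureTheory Pool.Agent.Lib.PR Pool.Agent.Lib.KAPI
  Pool.Agent.H.MP_7c40ec_lc

attribute [local irreducible] Primrec Computable

def Triv (μ : Measure (ℕ → Bool)) (g : Str → ℕ) (e : ℕ → Str) : Prop :=
  ∃ c : ℝ, ∀ n, avg μ g n ≤ g (e n) + c

theorem point {C K : Str → ℕ} (hC : Plain C) (hK : Pref K) {e : ℕ → Str} (he : Computable e)
    (hi : Function.Injective e) : ∃ c0 c : ℕ, ∀ (X : ℕ → Bool) l, (K (pre X l) : ℝ) ≤ K (e l) + c +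
      4 / 2 ^ l * ∑ n ∈ Ico (2 ^ l) (2 ^ (l + 1)), ((C (pre X n) : ℝ) + c0 - C (e n)) := by
  obtain ⟨c0, h0⟩ := hC.code' (fun l x => ∃ y, C y ≤ l - 1 ∧ 1 ≤ l ∧ x = e y.length) (re_exists (re_and
    (re_cmp hC.re (fun p : (ℕ × Str) × Str => (p.2, p.1.1 - 1)) (by fun_prop)) (re_and (re_prim (by fun_prop))
      (re_eq (by fun_prop) (by fun_prop))))) fun l F hF => by
      choose! y a1 a2 a3 using hF
      rcases F.eq_empty_or_nonempty with rfl | ⟨x, hx⟩
      · simp
      rw [← card_image_of_injOn (f := y) fun a ha b hb h => by rw [a3 a ha, a3 b hb, h],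
        ← Nat.sub_add_cancel (a2 x hx)]
      exact hC.card _ _ (forall_mem_image.2 a1)
  obtain ⟨c1, h1⟩ := hC.code' (fun l x => ∃ n, n < 2 ^ l ∧ x = e n) (re_exists (re_and
    (re_prim (by fun_prop)) (re_eq (by fun_prop) (by fun_prop)))) fun l F hF =>
      (card_le_card (t := (range (2 ^ l)).image e) fun x hx => by
        simpa [eq_comm] using hF x hx).trans (card_image_le.trans (card_range _).le)
  let S : Str → ℕ → Prop := fun x D => ∃ L : List Str, (L.Nodup ∧ 2 ^ x.length ≤ 2 * L.length) ∧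
    ∀ y ∈ L, x <+: y ∧ C y ≤ x.length + D
  have s0 : REPred fun p : Str × ℕ => S p.1 p.2 := by
    have a := re_and (re_prim (p := fun p : ((Str × ℕ) × List Str) × Str => p.1.1.1 <+: p.2)
      (by fun_prop)) (re_cmp hC.re (fun p => (p.2, p.1.1.1.length + p.1.1.2)) (by fun_prop))
    exact re_exists (R := fun (p : Str × ℕ) (L : List Str) => (L.Nodup ∧ 2 ^ p.1.length ≤
      2 * L.length) ∧ ∀ y ∈ L, p.1 <+: y ∧ C y ≤ p.1.length + p.2) (re_and (re_prim (by fun_prop))
      (re_ball (R := fun (p : (Str × ℕ) × List Str) y => p.1.1 <+: y ∧ C y ≤ p.1.1.length + p.1.2) a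
        (by fun_prop)))
  have s1 : ∀ l D (F : Finset Str), (∀ x ∈ F, x.length = l ∧ S x D) → #F ≤ 2 ^ (D + 2) := by
    intro l D F hF
    choose! a L b1 b2 using hF
    have h := hC.card (l + D) (F.biUnion fun x => (L x).toFinset) fun y hy => by
      obtain ⟨x, hx, hy⟩ := mem_biUnion.1 hy
      exact a x hx ▸ (b2 x hx y (List.mem_toFinset.1 hy)).2
    rw [card_biUnion fun x hx z hz h => disjoint_left.2 fun y c1 c2 => h
      ((List.prefix_of_prefix_length_le (b2 x hx y (List.mem_toFinset.1 c1)).1 (b2 z hz y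
        (List.mem_toFinset.1 c2)).1 (by rw [a x hx, a z hz])).eq_of_length (by
          rw [a x hx, a z hz]))] at h
    have := card_nsmul_le_sum F (fun x => 2 * #(L x).toFinset) (2 ^ l) fun x hx => by
      rw [List.toFinset_card_of_nodup (b1 x hx).1, ← a x hx]
      exact (b1 x hx).2
    rw [← mul_sum, smul_eq_mul] at this
    refine Nat.le_of_mul_le_mul_right (this.trans ((Nat.mul_le_mul_left 2 h).trans_eq ?_))
      (Nat.two_pow_pos l)
    ring
  obtain ⟨c2, h2⟩ := hK.code (fun x l => ∃ w : ℕ × ℕ, l = w.1 + 2 * w.2 + 4 ∧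
    K (e x.length) ≤ w.1 ∧ S x w.2) (re_exists (re_and (re_prim (by fun_prop)) (re_and
      (re_cmp hK.re (fun p : (Str × ℕ) × ℕ × ℕ => (e p.1.1.length, p.2.1)) (by fun_prop))
      (re_cmp s0 (fun p : (Str × ℕ) × ℕ × ℕ => (p.1.1, p.2.2)) (by fun_prop))))) fun F hF => by
    choose! w a1 a2 a3 using hF
    rw [← sum_fiberwise_of_maps_to (g := fun p => p.1.length) (t := F.image fun p => p.1.length)
      fun p => mem_image_of_mem _]
    refine le_trans (sum_le_sum fun l _ => ?_) ((sum_image (g := e) fun _ _ _ _ h => hi h).symm.trans_le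
      (hK.kraft _))
    refine wsum _ _ (fun p => (w p).1 - K (e l)) _ (by positivity) fun i => wsum _ _
      (fun p => (w p).2) _ (by positivity) fun D => ?_
    rw [filter_filter, filter_filter]
    have b : ∀ p ∈ {p ∈ F | p.1.length = l ∧ (w p).1 - K (e l) = i ∧ (w p).2 = D},
        p.2 = K (e l) + i + 2 * D + 4 ∧ p.1.length = l ∧ S p.1 D := fun p hp => by
      obtain ⟨hq, rfl, rfl, rfl⟩ := mem_filter.1 hp
      have := a1 p hq
      have := a2 p hq
      exact ⟨by omega, rfl, a3 p hq⟩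
    generalize {p ∈ F | p.1.length = l ∧ (w p).1 - K (e l) = i ∧ (w p).2 = D} = G at b
    rw [sum_congr rfl fun p hp => by rw [(b p hp).1], sum_const, nsmul_eq_mul,
      ← card_image_of_injOn (f := Prod.fst) fun p hp q hq h => Prod.ext h (by
        rw [(b p hp).1, (b q hq).1])]
    have : (#(G.image Prod.fst) : ℝ) ≤ 2 ^ (D + 2) := by
      exact_mod_cast s1 l D _ (forall_mem_image.2 fun p hp => (b p hp).2)
    refine (mul_le_mul_of_nonneg_right this (by positivity)).trans (le_of_eq ?_)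
    simp only [one_div_pow, pow_add, two_mul]
    field_simp
  refine ⟨c0 + 1, 2 * c1 + c2 + 6, fun X l => ?_⟩
  have a0 : ∀ n, C (e n) ≤ C (pre X n) + (c0 + 1) := fun n =>
    (h0 (C (pre X n) + 1) _ ⟨pre X n, by simp⟩).trans_eq (by ring)
  obtain ⟨δ, hδ⟩ : ∃ δ : ℕ → ℕ, ∀ n, C (pre X n) + (c0 + 1) = C (e n) + δ n :=
    ⟨_, fun n => (Nat.add_sub_cancel' (a0 n)).symm⟩
  rw [sum_congr rfl (g := fun n => (δ n : ℝ)) fun n _ => by
    rw [sub_eq_iff_eq_add']
    exact_mod_cast hδ n]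
  obtain ⟨D, hD⟩ : ∃ D, D = 2 * (∑ n ∈ Ico (2 ^ l) (2 ^ (l + 1)), δ n) / 2 ^ l := ⟨_, rfl⟩
  have a1 := card_nsmul_le_sum {n ∈ Ico (2 ^ l) (2 ^ (l + 1)) | ¬ δ n ≤ D} δ (D + 1) fun n hn =>
    not_le.1 (mem_filter.1 hn).2
  have a2 := a1.trans (sum_le_sum_of_subset (filter_subset _ _))
  have a3 := card_filter_add_card_filter_not (s := Ico (2 ^ l) (2 ^ (l + 1))) fun n => δ n ≤ D
  have a4 := Nat.lt_div_mul_add (a := 2 * ∑ n ∈ Ico (2 ^ l) (2 ^ (l + 1)), δ n) (Nat.two_pow_pos l)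
  have a5 : (D : ℝ) ≤ 2 * (∑ n ∈ Ico (2 ^ l) (2 ^ (l + 1)), (δ n : ℝ)) / 2 ^ l := by
    rw [hD]
    exact Nat.cast_div_le.trans_eq (by simp)
  rw [← hD] at a4
  rw [Nat.card_Ico, pow_succ, Nat.mul_two, Nat.add_sub_cancel, ← Nat.mul_two, ← pow_succ] at a3
  have a6 := h2 (pre X l) _ ⟨(K (e l), 1 + c1 + D), rfl, by simp,
    ({n ∈ Ico (2 ^ l) (2 ^ (l + 1)) | δ n ≤ D}.image (pre X)).toList, ⟨nodup_toList _, by
      rw [length_toList, card_image_of_injective _ fun a b h => by simpa using congrArg List.length h,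
        len_pre]
      rw [smul_eq_mul] at a2
      nlinarith⟩, fun y hy => by
      obtain ⟨n, hn, rfl⟩ := mem_image.1 (mem_toList.1 hy)
      obtain ⟨b1, b2⟩ := mem_filter.1 hn
      obtain ⟨b0, b1⟩ := mem_Ico.1 b1
      have := h1 _ _ ⟨n, b1, rfl⟩
      have := hδ n
      rw [← take_pre X (Nat.lt_two_pow_self.le.trans b0)]
      exact ⟨List.take_prefix _ _, by rw [take_pre X (Nat.lt_two_pow_self.le.trans b0), len_pre]; omega⟩⟩
  have a7 : (K (pre X l) : ℝ) ≤ K (e l) + 2 * (1 + c1 + D) + 4 + c2 := by exact_mod_cast a6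
  push_cast
  rw [div_mul_eq_mul_div, show (4 : ℝ) = 2 * 2 by norm_num, mul_assoc, mul_div_assoc]
  linarith

theorem result (U V : Str →. Str) (hU : Opt U) (hV : OptPF V) (e : ℕ → Str) (he : Computable e)
    (hi : Function.Injective e) (μ : Measure (ℕ → Bool)) [IsProbabilityMeasure μ]
    (h : Triv μ (cx U) e) : Triv μ (cx V) e := by
  obtain ⟨c, hc⟩ := h
  obtain ⟨c0, c1, h⟩ := point hU.plain hV.pref he hi
  refine ⟨c1 + 4 * (c0 + c), fun l => ?_⟩
  have a : ∀ n, Integrable (fun X => (cx U (pre X n) : ℝ) + c0 - cx U (e n)) μ := fun n =>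
    ((int_avg μ _ n).1.add (integrable_const _)).sub (integrable_const _)
  have b := (integrable_finsetSum (Ico (2 ^ l) (2 ^ (l + 1))) fun n _ => a n).const_mul (4 / 2 ^ l)
  have := integral_mono (int_avg μ _ l).1 ((integrable_const _).add b) fun X => h X l
  rw [(int_avg μ _ l).2] at this
  refine this.trans ?_
  simp only [Pi.add_apply]
  rw [integral_add (integrable_const _) b, integral_const_mul, integral_finsetSum _ fun n _ => a n,
    integral_const, probReal_univ, one_smul, add_assoc]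
  refine add_le_add le_rfl (add_le_add le_rfl (le_of_le_of_eq (mul_le_mul_of_nonneg_left
    (sum_le_card_nsmul _ _ ((c0 : ℝ) + c) fun n _ => ?_) (by positivity)) ?_))
  · simp only [add_sub_assoc]
    rw [integral_add (int_avg μ _ n).1 (integrable_const _), (int_avg μ _ n).2]
    simp only [integral_const, probReal_univ, one_smul]
    linarith [hc n]
  · rw [Nat.card_Ico, pow_succ, Nat.mul_two, Nat.add_sub_cancel, nsmul_eq_mul]
    push_cast
    field_simp

end Pool.Agent.Results.MP_616e01_lc.Yes
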